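import Mathlib
import Pool.Agent.H.MP_13fe75_gt.helper41.Tight

/-! A tight smooth embedding of the Klein bottle into four-space that spans four-space. -/

set_option autoImplicit false

namespace Pool.Agent.Results.MP_13fe75_gt.TightEmbedding

open Set Topology

/-- The generating identifications `(x, y) ~ (x + 1, -y)` and `(x, y) ~ (x, y + 1)`. -/
def glue (p q : ℝ × ℝ) : Prop := q = (p.1 + 1, -p.2) ∨ q = (p.1, p.2 + 1)

/-- The Klein bottle: the plane modulo `(x, y) ~ (x + 1, -y)` and `(x, y) ~ (x, y + 1)`. -/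
def Klein : Type := Quot glue

/-- The quotient topology. -/
instance : TopologicalSpace Klein := inferInstanceAs (TopologicalSpace (Quot glue))

/-- The covering projection of the plane onto the Klein bottle. -/
def proj (p : ℝ × ℝ) : Klein := Quot.mk _ p

lemma proj_continuous : Continuous proj := continuous_quot_mk

lemma proj_surjective : Function.Surjective proj := Quot.mk_surjective

lemma tr1 (x y : ℝ) : proj (x + 1, -y) = proj (x, y) :=
  (Quot.sound (r := glue) (Or.inl rfl : glue (x, y) (x + 1, -y))).symm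

lemma tr2 (x y : ℝ) : proj (x, y + 1) = proj (x, y) :=
  (Quot.sound (r := glue) (Or.inr rfl : glue (x, y) (x, y + 1))).symm

lemma trY (x y : ℝ) (n : ℤ) : proj (x, y + n) = proj (x, y) := by
  induction n using Int.induction_on with
  | zero => simp
  | succ n ih =>
    have h := tr2 x (y + n)
    have e : y + ((n : ℤ) + 1 : ℤ) = y + n + 1 := by push_cast; ring
    rw [e, h]
    simpa using ih
  | pred n ih =>
    have h := tr2 x (y + ((-(n : ℤ) - 1 : ℤ) : ℝ))
    have e : y + ((-(n : ℤ) - 1 : ℤ) : ℝ) + 1 = y + ((-(n : ℤ) : ℤ) : ℝ) := by push_cast; ring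
    rw [← h, e]
    exact ih

lemma trX2 (x y : ℝ) : proj (x + 2, y) = proj (x, y) := by
  have h := tr1 (x + 1) (-y)
  have h' := tr1 x y
  rw [neg_neg] at h
  have e : x + 1 + 1 = x + 2 := by ring
  rw [e] at h
  rw [h, h']

lemma trX (x y : ℝ) (k : ℤ) : proj (x + 2 * k, y) = proj (x, y) := by
  induction k using Int.induction_on with
  | zero => simp
  | succ n ih =>
    have h := trX2 (x + 2 * n) y
    have e : x + 2 * (((n : ℤ) + 1 : ℤ) : ℝ) = x + 2 * n + 2 := by push_cast; ring
    rw [e, h]
    simpa using ih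
  | pred n ih =>
    have h := trX2 (x + 2 * ((-(n : ℤ) - 1 : ℤ) : ℝ)) y
    have e : x + 2 * ((-(n : ℤ) - 1 : ℤ) : ℝ) + 2 = x + 2 * ((-(n : ℤ) : ℤ) : ℝ) := by
      push_cast; ring
    rw [← h, e]
    exact ih

instance : CompactSpace Klein := by
  refine ⟨?_⟩
  have hK : IsCompact (proj '' (Icc (0 : ℝ) 2 ×ˢ Icc (0 : ℝ) 1)) :=
    (isCompact_Icc.prod isCompact_Icc).image proj_continuous
  have : (univ : Set Klein) = proj '' (Icc (0 : ℝ) 2 ×ˢ Icc (0 : ℝ) 1) := by
    refine (eq_univ_iff_forall.2 ?_).symm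
    intro z
    obtain ⟨⟨x, y⟩, rfl⟩ := proj_surjective z
    refine ⟨(x + 2 * ((-⌊x / 2⌋ : ℤ) : ℝ), y + ((-⌊y⌋ : ℤ) : ℝ)), ⟨?_, ?_⟩, ?_⟩
    · have h1 := Int.floor_le (x / 2)
      have h2 := Int.lt_floor_add_one (x / 2)
      simp only [mem_Icc]
      push_cast
      constructor <;> linarith
    · have h1 := Int.floor_le y
      have h2 := Int.lt_floor_add_one y
      simp only [mem_Icc]
      push_cast
      constructor <;> linarith
    · rw [trY, trX]
  rw [this]
  exact hK

open Pool.Agent.H.MP_13fe75_gt.helper41.Tight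

lemma AA_inj {v w : ℝ} (h : AA v = AA w) : Real.cos v = Real.cos w := by
  have hd : ∀ u : ℝ, HasDerivAt (fun u : ℝ => (1 + u) / 2 + gb u) (1 / 2 + gb1 u) u := by
    intro u
    have h1 : HasDerivAt (fun u : ℝ => (1 + u) / 2) (1 / 2) u :=
      ((hasDerivAt_id u).const_add 1).div_const 2
    exact h1.add (hasDerivAt_gb u)
  have hm : StrictMono (fun u : ℝ => (1 + u) / 2 + gb u) := by
    apply strictMono_of_deriv_pos
    intro u
    rw [(hd u).deriv]
    linarith [gb1_gt u]
  exact hm.injective h

lemma FF_inj {p q : ℝ × ℝ} (h : FF p = FF q) : proj p = proj q := by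
  obtain ⟨x, y⟩ := p
  obtain ⟨x', y'⟩ := q
  have h0 := congrArg (fun z : EuclideanSpace ℝ (Fin 4) => z 0) h
  have h1 := congrArg (fun z : EuclideanSpace ℝ (Fin 4) => z 1) h
  have h2 := congrArg (fun z : EuclideanSpace ℝ (Fin 4) => z 2) h
  have h3 := congrArg (fun z : EuclideanSpace ℝ (Fin 4) => z 3) h
  simp [FF] at h0 h1 h2 h3
  have ha := AA_pos (2 * Real.pi * y)
  have ha' := AA_pos (2 * Real.pi * y')
  have hsq : AA (2 * Real.pi * y) ^ 2 = AA (2 * Real.pi * y') ^ 2 := by
    have e1 := Real.cos_sq_add_sin_sq (2 * (Real.pi * x))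
    have e2 := Real.cos_sq_add_sin_sq (2 * (Real.pi * x'))
    calc AA (2 * Real.pi * y) ^ 2
        = (AA (2 * Real.pi * y) * Real.cos (2 * (Real.pi * x))) ^ 2 +
          (AA (2 * Real.pi * y) * Real.sin (2 * (Real.pi * x))) ^ 2 := by
            linear_combination (- AA (2 * Real.pi * y) ^ 2) * e1
      _ = (AA (2 * Real.pi * y') * Real.cos (2 * (Real.pi * x'))) ^ 2 +
          (AA (2 * Real.pi * y') * Real.sin (2 * (Real.pi * x'))) ^ 2 := by rw [h0, h1]
      _ = AA (2 * Real.pi * y') ^ 2 := by
            linear_combination (AA (2 * Real.pi * y') ^ 2) * e2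
  have hA : AA (2 * Real.pi * y) = AA (2 * Real.pi * y') :=
    (pow_left_inj₀ ha.le ha'.le (by norm_num)).1 hsq
  have hcos := AA_inj hA
  rw [← hA] at h0 h1
  have c2 : Real.cos (2 * (Real.pi * x)) = Real.cos (2 * (Real.pi * x')) :=
    mul_left_cancel₀ ha.ne' h0
  have s2 : Real.sin (2 * (Real.pi * x)) = Real.sin (2 * (Real.pi * x')) :=
    mul_left_cancel₀ ha.ne' h1
  obtain ⟨m, hm⟩ := Real.Angle.angle_eq_iff_two_pi_dvd_sub.1
    (Real.Angle.cos_sin_inj c2.symm s2.symm)
  have hpi := Real.pi_pos
  have hx : x' = x + m := by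
    have : 2 * Real.pi * (x' - x - m) = 0 := by linear_combination hm
    rcases mul_eq_zero.1 this with h' | h'
    · exact absurd h' (by positivity)
    · linarith
  subst hx
  rcases Int.even_or_odd m with ⟨k, hk⟩ | ⟨k, hk⟩
  · have ec : Real.cos (Real.pi * (x + m)) = Real.cos (Real.pi * x) := by
      rw [← Real.cos_add_int_mul_two_pi (Real.pi * x) k]
      congr 1
      rw [hk]; push_cast; ring
    have es : Real.sin (Real.pi * (x + m)) = Real.sin (Real.pi * x) := by
      rw [← Real.sin_add_int_mul_two_pi (Real.pi * x) k]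
      congr 1
      rw [hk]; push_cast; ring
    rw [ec] at h2
    rw [es] at h3
    have hs : Real.sin (2 * Real.pi * y) = Real.sin (2 * Real.pi * y') := by
      have e1 := Real.cos_sq_add_sin_sq (Real.pi * x)
      linear_combination Real.cos (Real.pi * x) * h2 + Real.sin (Real.pi * x) * h3 -
        (Real.sin (2 * Real.pi * y) - Real.sin (2 * Real.pi * y')) * e1
    obtain ⟨n, hn⟩ := Real.Angle.angle_eq_iff_two_pi_dvd_sub.1
      (Real.Angle.cos_sin_inj hcos.symm hs.symm)
    have hy : y' = y + n := by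
      have : 2 * Real.pi * (y' - y - n) = 0 := by linear_combination hn
      rcases mul_eq_zero.1 this with h' | h'
      · exact absurd h' (by positivity)
      · linarith
    rw [hy, trY]
    have : x + (m : ℝ) = x + 2 * k := by rw [hk]; push_cast; ring
    rw [this, trX]
  · have ec : Real.cos (Real.pi * (x + m)) = - Real.cos (Real.pi * x) := by
      rw [← Real.cos_add_pi, ← Real.cos_add_int_mul_two_pi (Real.pi * x + Real.pi) k]
      congr 1
      rw [hk]; push_cast; ring
    have es : Real.sin (Real.pi * (x + m)) = - Real.sin (Real.pi * x) := by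
      rw [← Real.sin_add_pi, ← Real.sin_add_int_mul_two_pi (Real.pi * x + Real.pi) k]
      congr 1
      rw [hk]; push_cast; ring
    rw [ec] at h2
    rw [es] at h3
    have hs : Real.sin (-(2 * Real.pi * y)) = Real.sin (2 * Real.pi * y') := by
      rw [Real.sin_neg]
      have e1 := Real.cos_sq_add_sin_sq (Real.pi * x)
      linear_combination -Real.cos (Real.pi * x) * h2 - Real.sin (Real.pi * x) * h3 +
        (Real.sin (2 * Real.pi * y) + Real.sin (2 * Real.pi * y')) * e1
    have hc' : Real.cos (-(2 * Real.pi * y)) = Real.cos (2 * Real.pi * y') := by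
      rw [Real.cos_neg]; exact hcos
    obtain ⟨n, hn⟩ := Real.Angle.angle_eq_iff_two_pi_dvd_sub.1
      (Real.Angle.cos_sin_inj hc'.symm hs.symm)
    have hy : y' = -y + n := by
      have : 2 * Real.pi * (y' + y - n) = 0 := by linear_combination hn
      rcases mul_eq_zero.1 this with h' | h'
      · exact absurd h' (by positivity)
      · linarith
    rw [hy, trY]
    have : x + (m : ℝ) = (x + 1) + 2 * k := by rw [hk]; push_cast; ring
    rw [this, trX, tr1]

/-- The embedding. -/
noncomputable def emb : Klein → EuclideanSpace ℝ (Fin 4) :=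
  Quot.lift FF (by
    rintro ⟨x, y⟩ q (rfl | rfl)
    · exact (FF_sym x y).symm
    · exact (FF_per x y).symm)

/-- There is an embedding `f` of the Klein bottle into four-space that is smooth with injective
differential (in the coordinates of the plane that covers it), whose image lies in no hyperplane
and that is tight: the preimage of every open half-space is connected or empty. -/
theorem result :
    ∃ f : Klein → EuclideanSpace ℝ (Fin 4),
      IsClosedEmbedding f ∧
      ContDiff ℝ (⊤ : ℕ∞) (fun p => f (proj p)) ∧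
      (∀ p : ℝ × ℝ, Function.Injective (fderiv ℝ (fun p => f (proj p)) p)) ∧
      (∀ (v : EuclideanSpace ℝ (Fin 4)) (c : ℝ), v ≠ 0 → ∃ z : Klein, inner ℝ v (f z) ≠ c) ∧
      (∀ (v : EuclideanSpace ℝ (Fin 4)) (c : ℝ), IsPreconnected {z : Klein | c < inner ℝ v (f z)})
      := by
  have hcont : Continuous emb := continuous_quot_lift _ FF_contDiff.continuous
  refine ⟨emb, hcont.isClosedEmbedding ?_, FF_contDiff, FF_immersion, ?_, ?_⟩
  · intro a b hab
    obtain ⟨p, rfl⟩ := proj_surjective a
    obtain ⟨q, rfl⟩ := proj_surjective b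
    exact FF_inj hab
  · intro v c hv
    obtain ⟨p, hp⟩ := FF_substantial v c hv
    exact ⟨proj p, hp⟩
  · intro v c U W hU hW hUW hx hy
    by_contra hne
    rw [not_nonempty_iff_eq_empty] at hne
    have hSo : IsOpen {z : Klein | c < inner ℝ v (emb z)} :=
      isOpen_lt continuous_const (continuous_const.inner hcont)
    have inv : ∀ (V : Set Klein) (x y : ℝ), ((x, y) ∈ proj ⁻¹' V ↔ (x + 1, -y) ∈ proj ⁻¹' V) ∧
        ((x, y) ∈ proj ⁻¹' V ↔ (x, y + 1) ∈ proj ⁻¹' V) := by
      intro V x y
      simp only [mem_preimage, tr1, tr2, and_self]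
    have hdis : Disjoint (proj ⁻¹' ({z : Klein | c < inner ℝ v (emb z)} ∩ U))
        (proj ⁻¹' ({z : Klein | c < inner ℝ v (emb z)} ∩ W)) := by
      rw [Set.disjoint_left]
      intro p h1 h2
      have : proj p ∈ {z : Klein | c < inner ℝ v (emb z)} ∩ (U ∩ W) := ⟨h1.1, h1.2, h2.2⟩
      rw [hne] at this
      exact this
    have hun : proj ⁻¹' ({z : Klein | c < inner ℝ v (emb z)} ∩ U) ∪
        proj ⁻¹' ({z : Klein | c < inner ℝ v (emb z)} ∩ W) =
        {p : ℝ × ℝ | c < inner ℝ v (FF p)} := by
      ext p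
      constructor
      · rintro (h | h)
        · exact h.1
        · exact h.1
      · intro h
        rcases hUW (show proj p ∈ {z : Klein | c < inner ℝ v (emb z)} from h) with h' | h'
        · exact Or.inl ⟨h, h'⟩
        · exact Or.inr ⟨h, h'⟩
    rcases FF_tight v c _ _ ((hSo.inter hU).preimage proj_continuous)
      ((hSo.inter hW).preimage proj_continuous) (inv _) (inv _) hdis hun with h | h
    · obtain ⟨a, ha⟩ := hx
      obtain ⟨p, rfl⟩ := proj_surjective a
      have : p ∈ (∅ : Set (ℝ × ℝ)) := h ▸ ha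
      exact this
    · obtain ⟨a, ha⟩ := hy
      obtain ⟨p, rfl⟩ := proj_surjective a
      have : p ∈ (∅ : Set (ℝ × ℝ)) := h ▸ ha
      exact this

end Pool.Agent.Results.MP_13fe75_gt.TightEmbedding
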